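import Pool.Agent.X188.HilbMod

/-!
# MP_7e9539_an: ternary hereditary closed ternary subspaces are linking hereditary

Hilbert C*-modules are Mathlib's `CStarModule A E` (left-module convention
`⟪x, a • y⟫ = a * ⟪x, y⟫`; a right Hilbert `B`-module is the case `A = Bᵐᵒᵖ`, and `x ⟨y, z⟩` is
written `inner A y z • x`).
-/

open Pool.Agent.X188.HM

namespace Pool.Agent.Results.MP_7e9539_an.TernaryLinking

variable {A E : Type*} [NonUnitalCStarAlgebra A] [PartialOrder A] [StarOrderedRing A]
  [NormedAddCommGroup E] [NormedSpace ℂ E] [SMul A E] [CStarModule A E]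

variable (A) in
/-- `T` is an element of the linking algebra `L_F = (B_F, F^*; F, K(F))`, regarded as an operator
on `B_E ⊕ E`: for some `b ∈ B_F`, `x, y ∈ F`, `k ∈ K(F)` it maps the pair `(c, z)` to
`(b c + ⟨x, z⟩, y c + k z)` (in the notation of right modules; `B_E = innerSpan A ⊤`). -/
def InLinking (F : Submodule ℂ E)
    (T : innerSpan A (⊤ : Submodule ℂ E) × E → innerSpan A (⊤ : Submodule ℂ E) × E) : Prop :=
  ∃ b ∈ innerSpan A F, ∃ x ∈ F, ∃ y ∈ F, ∃ k ∈ compacts A F,
    ∀ (c : innerSpan A (⊤ : Submodule ℂ E)) (z : E),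
      ((T (c, z)).1 : A) = (c : A) * b + inner A x z ∧ (T (c, z)).2 = (c : A) • y + k z

variable (A) in
/-- `F` is ternary hereditary: `x ⟨y, z⟩ ∈ F` for all `x, z ∈ F` and `y ∈ E`. -/
def IsTernaryHereditary (F : Submodule ℂ E) : Prop :=
  ∀ x ∈ F, ∀ y : E, ∀ z ∈ F, inner A y z • x ∈ F

variable (A) in
/-- `F` is linking hereditary: `L_F L_E L_F ⊆ L_F`. -/
def IsLinkingHereditary (F : Submodule ℂ E) : Prop :=
  ∀ P Q R : innerSpan A (⊤ : Submodule ℂ E) × E → innerSpan A (⊤ : Submodule ℂ E) × E,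
    InLinking A F P → InLinking A ⊤ Q → InLinking A F R → InLinking A F (P ∘ Q ∘ R)

section proof

variable {F : Submodule ℂ E}

/-- (A): `c (b x) ∈ F` for `c ∈ B_F`, `x ∈ F`, `b ∈ B_E` -/
lemma factA (hF : IsClosedTernary A F) (hH : IsTernaryHereditary A F) {c : A}
    (hc : c ∈ innerSpan A F) {b : A} (hb : b ∈ innerSpan A (⊤ : Submodule ℂ E)) {x : E}
    (hx : x ∈ F) : c • (b • x) ∈ F := by
  refine innerSpan_ind (actL (b • x)) hF.closed ?_ hc
  intro y hy z hz
  rw [actL_apply]
  refine innerSpan_ind ((actR (E := E) (inner A y z)).comp (actL x)) hF.closed ?_ hb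
  intro p _ q _
  rw [ContinuousLinearMap.comp_apply, actL_apply, actR_apply, ← mul_a]
  have h1 : inner A y z * inner A p q = inner A (inner A q p • y) z := by
    rw [CStarModule.inner_op_smul_left, CStarModule.star_inner]
  rw [h1]
  exact hH x hx _ z hz

/-- (G1): `c (k v) ∈ F` for `c ∈ B_F`, `k ∈ K(F)`, `v ∈ E` -/
lemma factG1 (hF : IsClosedTernary A F) (hH : IsTernaryHereditary A F) {c : A}
    (hc : c ∈ innerSpan A F) {k : E →L[ℂ] E} (hk : k ∈ compacts A F) (v : E) :
    c • (k v) ∈ F := by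
  refine innerSpan_ind (actL (k v)) hF.closed ?_ hc
  intro y hy z hz
  rw [actL_apply]
  refine compacts_ind ((actR (E := E) (inner A y z)).comp (ContinuousLinearMap.apply ℂ E v))
    hF.closed ?_ hk
  intro p hp q _
  rw [ContinuousLinearMap.comp_apply, ContinuousLinearMap.apply_apply, actR_apply, rankOne_apply,
    ← mul_a]
  have h1 : inner A y z * inner A q v = inner A (inner A v q • y) z := by
    rw [CStarModule.inner_op_smul_left, CStarModule.star_inner]
  rw [h1]
  exact hH p hp _ z hz

/-- (G2): `κ (k v) ∈ F` for `κ ∈ K(F)`, `v ∈ F` and `k` adjointable -/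
lemma factG2 (hF : IsClosedTernary A F) (hH : IsTernaryHereditary A F) {κ : E →L[ℂ] E}
    (hκ : κ ∈ compacts A F) {k k' : E →L[ℂ] E} (hk : IsAdj (A := A) k k') {v : E} (hv : v ∈ F) :
    κ (k v) ∈ F := by
  refine compacts_ind (ContinuousLinearMap.apply ℂ E (k v)) hF.closed ?_ hκ
  intro p hp q _
  rw [ContinuousLinearMap.apply_apply, rankOne_apply]
  have h1 : inner A q (k v) = inner A (k' q) v := (hk.symm q v).symm
  rw [h1]
  exact hH p hp _ v hv

/-- `u ↦ rankOne u v` -/
noncomputable def rkL (v : E) : E →L[ℂ] (E →L[ℂ] E) :=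
  LinearMap.mkContinuous
    { toFun := fun u => rankOne A u v
      map_add' := fun u w => by
        ext z
        simp only [rankOne_apply, _root_.add_apply, a_add]
      map_smul' := fun c u => by
        ext z
        simp only [rankOne_apply, _root_.smul_apply, a_c, RingHom.id_apply] }
    ‖v‖ fun u => by
      change ‖rankOne A u v‖ ≤ _
      refine (LinearMap.mkContinuous_norm_le _ (by positivity) _).trans ?_
      rw [mul_comm]

lemma norm_rankOne_le (u v : E) : ‖rankOne A u v‖ ≤ ‖u‖ * ‖v‖ :=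
  LinearMap.mkContinuous_norm_le _ (by positivity) _

lemma rankOne_sub_right (u v w : E) : rankOne A u (v - w) = rankOne A u v - rankOne A u w := by
  ext z
  simp only [rankOne_apply, _root_.sub_apply, CStarModule.inner_sub_left]
  refine ext_in A fun t => ?_
  simp only [CStarModule.inner_op_smul_right, CStarModule.inner_sub_right, sub_mul]

lemma rankOne_a_right (u v : E) (c : A) : rankOne A u (c • v) = rankOne A (star c • u) v := by
  ext z
  rw [rankOne_apply, rankOne_apply, CStarModule.inner_op_smul_left, mul_a]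

/-- approximation in the second variable of a rank-one operator -/
lemma rankOne_approx_right (hF : IsClosedTernary A F) {u x : E} (hx : x ∈ F)
    (h : ∀ c ∈ innerSpan A F, c • u ∈ F) : rankOne A u x ∈ compacts A F := by
  obtain ⟨c, hc, hlim⟩ := approx hF hx
  have h1 : Filter.Tendsto (fun n => rankOne A u (c n • x)) Filter.atTop (nhds (rankOne A u x)) := by
    rw [tendsto_iff_norm_sub_tendsto_zero] at hlim ⊢
    refine squeeze_zero (fun _ => norm_nonneg _) (fun n => ?_)
      (by simpa using hlim.const_mul ‖u‖)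
    rw [← rankOne_sub_right]
    exact norm_rankOne_le _ _
  refine (compacts_closed F).mem_of_tendsto h1 (Filter.Eventually.of_forall fun n => ?_)
  rw [rankOne_a_right]
  exact rankOne_mem (h _ (star_mem_innerSpan (hc n))) hx

/-- approximation in the first variable of a rank-one operator -/
lemma rankOne_approx_left (hF : IsClosedTernary A F) {u x : E} (hx : x ∈ F)
    (h : ∀ c ∈ innerSpan A F, c • u ∈ F) : rankOne A x u ∈ compacts A F := by
  obtain ⟨c, hc, hlim⟩ := approx hF hx
  have h1 : Filter.Tendsto (fun n => rankOne A (c n • x) u) Filter.atTop (nhds (rankOne A x u)) :=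
    ((rkL (A := A) u).continuous.tendsto x).comp hlim
  refine (compacts_closed F).mem_of_tendsto h1 (Filter.Eventually.of_forall fun n => ?_)
  have h2 : rankOne A (c n • x) u = rankOne A x (star (c n) • u) := by
    rw [rankOne_a_right, star_star]
  rw [h2]
  exact rankOne_mem hx (h _ (star_mem_innerSpan (hc n)))

/-- (4): `⟨x, k y⟩ ∈ B_F` for `x, y ∈ F` -/
lemma fact4 (hF : IsClosedTernary A F) (hH : IsTernaryHereditary A F)
    {k k' : E →L[ℂ] E} (hk : IsAdj (A := A) k k') {x y : E} (hx : x ∈ F) (hy : y ∈ F) :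
    inner A x (k y) ∈ innerSpan A F := by
  obtain ⟨c, hc, hlim⟩ := approx hF hx
  have h1 : Filter.Tendsto (fun n => inner A (c n • x) (k y)) Filter.atTop
      (nhds (inner A x (k y))) :=
    ((CStarModule.continuous_inner (A := A) (E := E)).tendsto (x, k y)).comp
      (hlim.prodMk_nhds tendsto_const_nhds)
  refine (innerSpan_closed F).mem_of_tendsto h1 (Filter.Eventually.of_forall fun n => ?_)
  rw [CStarModule.inner_op_smul_left]
  refine innerSpan_ind (ContinuousLinearMap.mul ℂ A (inner A x (k y))) (innerSpan_closed F) ?_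
    (star_mem_innerSpan (hc n))
  intro u hu v hv
  rw [ContinuousLinearMap.mul_apply', ← CStarModule.inner_op_smul_right, ← hk.symm x y]
  exact inner_mem hu (hH v hv _ y hy)

/-- (H4): `k₁ k k₂ ∈ K(F)` -/
lemma factH4 (hH : IsTernaryHereditary A F) {k₁ k₂ k k' : E →L[ℂ] E}
    (h₁ : k₁ ∈ compacts A F) (h₂ : k₂ ∈ compacts A F) (hk : IsAdj (A := A) k k') :
    k₁.comp (k.comp k₂) ∈ compacts A F := by
  refine compacts_ind ((ContinuousLinearMap.compL ℂ E E E).flip (k.comp k₂))
    (compacts_closed F) ?_ h₁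
  intro p hp q _
  refine compacts_ind (((ContinuousLinearMap.compL ℂ E E E) (rankOne A p q)).comp
    ((ContinuousLinearMap.compL ℂ E E E) k)) (compacts_closed F) ?_ h₂
  intro u hu v hv
  have e : ((ContinuousLinearMap.compL ℂ E E E) (rankOne A p q)).comp
      ((ContinuousLinearMap.compL ℂ E E E) k) (rankOne A u v) =
      rankOne A (inner A (k' q) u • p) v := by
    ext z
    change rankOne A p q (k (rankOne A u v z)) = _
    rw [rankOne_apply, rankOne_apply, rankOne_apply, hk.map_a, CStarModule.inner_op_smul_right,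
      mul_a, ← hk.symm q u]
  rw [e]
  exact rankOne_mem (hH p hp _ u hu) hv

end proof

/-- **Theorem.** Let `E` be a Hilbert C*-module over a C*-algebra and `F ⊆ E` a closed ternary
subspace.  If `F` is ternary hereditary in `E`, then `F` is linking hereditary in `E`. -/
theorem result [CompleteSpace E] (F : Submodule ℂ E) (hF : IsClosedTernary A F)
    (hH : IsTernaryHereditary A F) : IsLinkingHereditary A F := by
  rintro P Q R ⟨b₁, hb₁, x₁, hx₁, y₁, hy₁, k₁, hk₁, hP⟩ ⟨b, hb, x, -, y, -, k, hk, hQ⟩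
    ⟨b₂, hb₂, x₂, hx₂, y₂, hy₂, k₂, hk₂, hR⟩
  obtain ⟨k', -, hadj⟩ := exists_adj hk
  obtain ⟨k₁', -, hadj₁⟩ := exists_adj hk₁
  obtain ⟨k₂', hk₂', hadj₂⟩ := exists_adj hk₂
  have hsb : star b ∈ innerSpan A (⊤ : Submodule ℂ E) := star_mem_innerSpan hb
  have hsb₁ : star b₁ ∈ innerSpan A F := star_mem_innerSpan hb₁
  refine ⟨b₂ * b * b₁ + inner A x y₂ * b₁ + b₂ * inner A x₁ y + inner A x₁ (k y₂), ?_,
    star b₁ • (star b • x₂) + star b₁ • (k₂' x) + inner A y x₁ • x₂ + k₂' (k' x₁), ?_,
    b₂ • (b • y₁) + inner A x y₂ • y₁ + b₂ • (k₁ y) + k₁ (k y₂), ?_,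
    rankOne A (b • y₁) x₂ + rankOne A y₁ (k₂' x) + rankOne A (k₁ y) x₂ + k₁.comp (k.comp k₂), ?_,
    ?_⟩
  · -- the coefficient in `B_F`
    refine Submodule.add_mem _ (Submodule.add_mem _ (Submodule.add_mem _ ?_ ?_) ?_)
      (fact4 hF hH hadj hx₁ hy₂)
    · refine innerSpan_ind (ContinuousLinearMap.mul ℂ A (b₂ * b)) (innerSpan_closed F) ?_ hb₁
      intro u hu v hv
      rw [ContinuousLinearMap.mul_apply', mul_assoc, ← CStarModule.inner_op_smul_right,
        ← CStarModule.inner_op_smul_right]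
      exact inner_mem hu (factA hF hH hb₂ hb hv)
    · refine innerSpan_ind (ContinuousLinearMap.mul ℂ A (inner A x y₂)) (innerSpan_closed F) ?_ hb₁
      intro u hu v hv
      rw [ContinuousLinearMap.mul_apply', ← CStarModule.inner_op_smul_right]
      exact inner_mem hu (hH v hv _ y₂ hy₂)
    · refine innerSpan_ind ((ContinuousLinearMap.mul ℂ A).flip (inner A x₁ y))
        (innerSpan_closed F) ?_ hb₂
      intro u hu v hv
      have e : (ContinuousLinearMap.mul ℂ A).flip (inner A x₁ y) (inner A u v) =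
          inner A (inner A y x₁ • u) v := by
        rw [ContinuousLinearMap.flip_apply, ContinuousLinearMap.mul_apply',
          CStarModule.inner_op_smul_left, CStarModule.star_inner]
      rw [e]
      exact inner_mem (hH u hu _ x₁ hx₁) hv
  · refine Submodule.add_mem _ (Submodule.add_mem _ (Submodule.add_mem _ ?_ ?_) ?_) ?_
    · exact factA hF hH hsb₁ hsb hx₂
    · exact factG1 hF hH hsb₁ hk₂' x
    · exact hH x₂ hx₂ _ x₁ hx₁
    · exact factG2 hF hH hk₂' hadj.symm hx₁
  · refine Submodule.add_mem _ (Submodule.add_mem _ (Submodule.add_mem _ ?_ ?_) ?_) ?_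
    · exact factA hF hH hb₂ hb hy₁
    · exact hH y₁ hy₁ _ y₂ hy₂
    · exact factG1 hF hH hb₂ hk₁ y
    · exact factG2 hF hH hk₁ hadj hy₂
  · refine Submodule.add_mem _ (Submodule.add_mem _ (Submodule.add_mem _ ?_ ?_) ?_) ?_
    · exact rankOne_approx_right hF hx₂ fun c hc => factA hF hH hc hb hy₁
    · exact rankOne_approx_left hF hy₁ fun c hc => factG1 hF hH hc hk₂' x
    · exact rankOne_approx_right hF hx₂ fun c hc => factG1 hF hH hc hk₁ y
    · exact factH4 hH hk₁ hk₂ hadj
  · intro c z
    obtain ⟨r1, r2⟩ := hR c z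
    obtain ⟨q1, q2⟩ := hQ (R (c, z)).1 (R (c, z)).2
    obtain ⟨p1, p2⟩ := hP (Q (R (c, z))).1 (Q (R (c, z))).2
    rw [Prod.mk.eta] at q1 q2 p1 p2
    have a1 : ∀ v, inner A x (k₂ v) = inner A (k₂' x) v := fun v => (hadj₂.symm x v).symm
    have a2 : ∀ v, inner A x₁ (k v) = inner A (k' x₁) v := fun v => (hadj.symm x₁ v).symm
    have a3 : ∀ v, inner A (k' x₁) (k₂ v) = inner A (k₂' (k' x₁)) v :=
      fun v => (hadj₂.symm (k' x₁) v).symm
    constructor
    · change ((P (Q (R (c, z)))).1 : A) = _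
      rw [p1, q1, q2, r1, r2]
      simp only [CStarModule.inner_add_right, CStarModule.inner_add_left,
        CStarModule.inner_op_smul_right, CStarModule.inner_op_smul_left, map_add, hadj.map_a,
        star_star, CStarModule.star_inner, a1, a2, a3, mul_add, add_mul, mul_assoc]
      abel
    · change (P (Q (R (c, z)))).2 = _
      rw [p2, q1, q2, r1, r2]
      simp only [_root_.add_apply, ContinuousLinearMap.comp_apply, rankOne_apply,
        CStarModule.inner_add_right, CStarModule.inner_add_left,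
        CStarModule.inner_op_smul_right, CStarModule.inner_op_smul_left, map_add, hadj.map_a,
        hadj₁.map_a, a1, a_add, add_a, mul_a]
      abel

end Pool.Agent.Results.MP_7e9539_an.TernaryLinking
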